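import Pool.Agent.N343.AM.Stm

/-!
# Project AM (helper343), part CLM: from factors of one level to factors of the next (helper252)
-/

set_option autoImplicit false

open Finset

namespace Pool.Agent.N252.AM

open Pool.Agent.N343.AM

theorem star_append {W : Set Wd} {a b : Wd} (ha : a ∈ star W) (hb : b ∈ star W) : a ++ b ∈ star W := by
  obtain ⟨l, hl, rfl⟩ := ha
  obtain ⟨l', hl', rfl⟩ := hb
  refine ⟨l ++ l', ?_, by rw [List.flatten_append]⟩
  intro w hw
  rcases List.mem_append.1 hw with h | h
  · exact hl w h
  · exact hl' w h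

theorem star_single {W : Set Wd} {w : Wd} (hw : w ∈ W) : w ∈ star W := by
  refine ⟨[w], ?_, by simp⟩
  intro u hu
  rw [List.mem_singleton] at hu
  rw [hu]
  exact hw

/-- the number of differences -/
theorem count (s Q s' G' : Wd) (a c K n : ℕ) (h1 : ∀ j < c, s[j]? = Q[j]?)
    (h2 : ∀ j, K ≤ j → s[j]? = s'[j - K]? ∧ Q[j]? = G'[j - K]?) :
    ((range n).filter (fun i => s[a + i]? ≠ Q[a + i]?)).card ≤ (K - c) + hl s' G' (n + a - K) := by
  have hsub : (range n).filter (fun i => s[a + i]? ≠ Q[a + i]?) ⊆
      ((range n).filter (fun i => c ≤ a + i ∧ a + i < K)) ∪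
        ((range n).filter (fun i => K ≤ a + i ∧ s[a + i]? ≠ Q[a + i]?)) := by
    intro i hi
    rw [mem_filter] at hi
    rw [mem_union, mem_filter, mem_filter]
    rcases lt_or_ge (a + i) K with h | h
    · left
      refine ⟨hi.1, ?_, h⟩
      by_contra hc
      exact hi.2 (h1 _ (not_le.1 hc))
    · exact Or.inr ⟨hi.1, h, hi.2⟩
  refine (card_le_card hsub).trans ((card_union_le _ _).trans (add_le_add ?_ ?_))
  · have h : ((range n).filter (fun i => c ≤ a + i ∧ a + i < K)).card ≤ (Finset.Ico c K).card := by
      refine card_le_card_of_injOn (fun i => a + i) ?_ ?_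
      · intro i hi
        have hi' := (mem_filter.1 hi).2
        exact Finset.mem_coe.2 (Finset.mem_Ico.2 hi')
      · intro i _ j _ hij
        have : a + i = a + j := hij
        omega
    rwa [Nat.card_Ico] at h
  · refine card_le_card_of_injOn (fun i => a + i - K) ?_ ?_
    · intro i hi
      have hi' := mem_filter.1 hi
      have hin := mem_range.1 hi'.1
      obtain ⟨hK, hne⟩ := hi'.2
      refine Finset.mem_coe.2 (mem_filter.2 ⟨mem_range.2 ?_, ?_⟩)
      · show a + i - K < n + a - K
        omega
      · have h := h2 (a + i) hK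
        rw [h.1, h.2] at hne
        exact hne
    · intro i hi j hj hij
      have hi' := (mem_filter.1 hi).2.1
      have hj' := (mem_filter.1 hj).2.1
      have : a + i - K = a + j - K := hij
      omega

theorem main (hF : S_FRO) (hC : S_CUT) (hG : S_GRP) : S_CLM := by
  intro W m P M hLv hP hM v hv
  have hDD : DD P m = P.length + 2 * (m ^ 2 + m + 1) := rfl
  obtain ⟨D, hD⟩ : ∃ D, D = DD P m := ⟨_, rfl⟩
  rw [← hD] at hM hDD ⊢
  obtain ⟨q, hq⟩ : ∃ q, q = m ^ 2 := ⟨_, rfl⟩
  rw [← hq] at hDD
  obtain ⟨hC1, -, hC3, -⟩ := hC W m hLv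
  obtain ⟨A, B, hA, hAB⟩ := hC3 v hv
  obtain ⟨t, ht, htl⟩ := hF W m hLv M (by rw [← hq]; omega)
  -- the word `s`
  obtain ⟨s, hs⟩ : ∃ s : Wd, s = A ++ (v ++ (B ++ t)) := ⟨_, rfl⟩
  have hsW : s ∈ star W := by
    have h := star_append hAB ht
    rw [hs]
    simpa [List.append_assoc] using h
  have hsl : s.length = A.length + v.length + B.length + M := by
    rw [hs]
    simp only [List.length_append, htl]
    omega
  obtain ⟨s1, hs1, s2, hs2, hs12, hs1a, hs1b⟩ := hC1 s hsW (M - q - P.length) (by omega)
  obtain ⟨f, hf, hfl⟩ := hF W m hLv (M - P.length - s1.length) (by rw [← hq]; omega)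
  obtain ⟨K, hK⟩ : ∃ K, K = M - P.length := ⟨_, rfl⟩
  have hKl : (s1 ++ f).length = K := by
    rw [List.length_append, hfl]
    omega
  have hG1 : P ++ (s1 ++ f) ∈ nxt W P M := by
    refine ⟨Or.inl ?_, s1 ++ f, star_append hs1 hf, rfl⟩
    rw [List.length_append, hKl]
    omega
  have hs' : s.drop K ∈ Suf W := ⟨s.take K, by rw [List.take_append_drop]; exact hsW⟩
  obtain ⟨G', hG', hG'l, hG'd⟩ := hG W m P M hLv hP (by rw [← hD]; omega) _ hs'
  rw [List.length_drop] at hG'l hG'd
  rw [← hD] at hG'd
  obtain ⟨Q, hQ⟩ : ∃ Q : Wd, Q = (s1 ++ f) ++ G' := ⟨_, rfl⟩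
  have hQl : s.length ≤ Q.length := by
    rw [hQ, List.length_append, hKl]
    omega
  have hPQ : P ++ Q ∈ star (nxt W P M) := by
    have h := star_append (star_single hG1) hG'
    rw [hQ]
    simpa [List.append_assoc] using h
  have hv'l : ((Q.drop A.length).take v.length).length = v.length := by
    rw [List.length_take, List.length_drop]
    omega
  refine ⟨(Q.drop A.length).take v.length, ?_, hv'l, ?_⟩
  · refine ⟨P ++ Q.take A.length, (Q.drop A.length).drop v.length, ?_⟩
    have e : P ++ Q.take A.length ++ (Q.drop A.length).take v.length ++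
        (Q.drop A.length).drop v.length = P ++ Q := by
      rw [List.append_assoc, List.take_append_drop, List.append_assoc, List.take_append_drop]
    rw [e]
    exact hPQ
  intro n hn
  -- the number of differences
  have hcount := count s Q (s.drop K) G' A.length s1.length K n
    (by
      intro j hj
      rw [hs12, hQ, List.append_assoc, List.getElem?_append_left hj, List.getElem?_append_left hj])
    (by
      intro j hj
      refine ⟨?_, ?_⟩
      · rw [List.getElem?_drop]
        congr 1
        omega
      · rw [hQ, List.getElem?_append_right (by rw [hKl]; exact hj), hKl])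
  have hhl : hl v ((Q.drop A.length).take v.length) n =
      ((range n).filter (fun i => s[A.length + i]? ≠ Q[A.length + i]?)).card := by
    unfold hl
    congr 1
    refine Finset.filter_congr fun i hi => ?_
    have hi' : i < v.length := lt_of_lt_of_le (mem_range.1 hi) hn
    have e1 : s[A.length + i]? = v[i]? := by
      rw [hs, List.getElem?_append_right (by omega), Nat.add_sub_cancel_left,
        List.getElem?_append_left hi']
    have e2 : ((Q.drop A.length).take v.length)[i]? = Q[A.length + i]? := by
      rw [List.getElem?_take_of_lt hi', List.getElem?_drop]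
    rw [e1, e2]
  rw [← hhl] at hcount
  rcases le_or_gt (n + A.length) s1.length with hsmall | hlarge
  · -- no differences
    have h0 : hl v ((Q.drop A.length).take v.length) n = 0 := by
      rw [hhl, card_eq_zero, filter_eq_empty_iff]
      intro i hi hne
      have hi' := mem_range.1 hi
      refine hne ?_
      have hj : A.length + i < s1.length := by omega
      rw [hs12, hQ, List.append_assoc, List.getElem?_append_left hj, List.getElem?_append_left hj]
    rw [h0, mul_zero]
    exact Nat.zero_le _
  · have hr := hG'd (n + A.length - K) (by omega)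
    have hrn : (n + A.length - K) / M ≤ n / M := Nat.div_le_div_right (by omega)
    have h1 : hl v ((Q.drop A.length).take v.length) n ≤ D * (n / M + 2) := by
      have h2 : D * ((n + A.length - K) / M + 1) ≤ D * (n / M + 1) :=
        Nat.mul_le_mul_left _ (by omega)
      have h3 : K - s1.length ≤ D := by omega
      calc hl v ((Q.drop A.length).take v.length) n ≤ D + D * (n / M + 1) := by omega
        _ = D * (n / M + 2) := by ring
    have h4 : M * (n / M) ≤ n := Nat.mul_div_le n M
    have h5 : 2 * M ≤ 3 * n := by omega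
    calc M * hl v ((Q.drop A.length).take v.length) n ≤ M * (D * (n / M + 2)) :=
          Nat.mul_le_mul_left _ h1
      _ = D * (M * (n / M) + 2 * M) := by ring
      _ ≤ D * (n + 3 * n) := Nat.mul_le_mul_left _ (by omega)
      _ ≤ 8 * D * n := by nlinarith

end Pool.Agent.N252.AM
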